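import Pool.Agent.Lib_helper41.TK.Defs2
import Pool.Agent.Lib_helper41.TK.W.TB
import Pool.Agent.Lib_helper41.TK.W.TF
import Pool.Agent.Lib_helper68.KSLF.FMN
import Pool.Agent.Lib_helper68.LEV.HPO

/-! TK, block FC. -/

set_option autoImplicit false

namespace Pool.Agent.TK

open Pool.Agent.LEV Pool.Agent.LVB Pool.Agent.KSL
open Pool.Agent.LK (PQ)
open Pool.Agent.FG61 (mu phi cc ff AA Lam)
open Complex MeasureTheory Filter Topology UpperHalfPlane ModularGroup ProbabilityTheory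
open scoped MatrixGroups Modular ENNReal ModularForm ComplexConjugate ContDiff

section
variable {q : ℕ} [NeZero q]

theorem fc_unit {χ : DirichletCharacter ℂ q} (hχ : PQ χ) {m : ℕ} (hm : m.Coprime q) :
    χ m = 1 ∨ χ m = -1 := by
  have h1 : (χ ^ 2) (m : ZMod q) = 1 := by
    rw [hχ.sq]
    exact MulChar.one_apply ((ZMod.isUnit_iff_coprime m q).2 hm)
  rw [MulChar.pow_apply' χ two_ne_zero] at h1
  exact mul_self_eq_one_iff.1 (by rw [← sq]; exact h1)

theorem fc_re {χ : DirichletCharacter ℂ q} (hχ : PQ χ) (m : ℕ) :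
    χ m = ((χ m).re : ℂ) := by
  by_cases hm : m.Coprime q
  · rcases fc_unit hχ hm with h | h <;> rw [h] <;> simp
  · have : ¬ IsUnit (m : ZMod q) := fun h => hm ((ZMod.isUnit_iff_coprime m q).1 h)
    rw [χ.map_nonunit this]
    simp

theorem fc_sq {χ : DirichletCharacter ℂ q} (hχ : PQ χ) {m : ℕ} (hm : m.Coprime q) :
    (χ m).re ^ 2 = 1 := by
  rcases fc_unit hχ hm with h | h <;> rw [h] <;> simp

theorem fc_mul {χ : DirichletCharacter ℂ q} (hχ : PQ χ) (m n : ℕ) :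
    (χ ((m * n : ℕ) : ZMod q)).re = (χ m).re * (χ n).re := by
  have h : χ ((m * n : ℕ) : ZMod q) = (((χ m).re * (χ n).re : ℝ) : ℂ) := by
    push_cast
    rw [map_mul, ← fc_re hχ, ← fc_re hχ]
  rw [h, Complex.ofReal_re]

/-- the character as a monoid homomorphism to the reals -/
noncomputable def fc_hom {χ : DirichletCharacter ℂ q} (hχ : PQ χ) : ℕ →* ℝ where
  toFun m := (χ m).re
  map_one' := by simp
  map_mul' m n := fc_mul hχ m n

theorem fc_uu {e : ℝ} (he : e ^ 2 = 1) (y : ℝ) (k : ℕ) : Uu (e * y) k = e ^ k * Uu y k := by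
  induction k using Nat.twoStepInduction with
  | zero => simp [Uu]
  | one => simp [Uu]
  | more k h1 h2 =>
    rw [Uu, Uu, h1, h2]
    linear_combination (e ^ k * Uu y k) * he

theorem fc_um {χ : DirichletCharacter ℂ q} (hχ : PQ χ) {m : ℕ} (hm : m.Coprime q) (h0 : m ≠ 0)
    (x : ℕ → ℝ) : Um m (fun p => (χ p).re * x p) = (χ m).re * Um m x := by
  unfold Um
  have h1 : ∀ p ∈ m.primeFactors, Uu ((χ p).re * x p) (m.factorization p) =
      (χ p).re ^ (m.factorization p) * Uu (x p) (m.factorization p) := by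
    intro p hp
    have hpq : p.Coprime q := Nat.Coprime.coprime_dvd_left (Nat.dvd_of_mem_primeFactors hp) hm
    exact fc_uu (fc_sq hχ hpq) _ _
  rw [Finset.prod_congr rfl h1, Finset.prod_mul_distrib]
  congr 1
  have h2 : (χ m).re = fc_hom hχ m := rfl
  have h3 : m = ∏ p ∈ m.primeFactors, p ^ m.factorization p :=
    (Nat.prod_factorization_pow_eq_self h0).symm
  rw [h2]
  conv_rhs => rw [h3]
  rw [map_prod]
  refine Finset.prod_congr rfl fun p _ => ?_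
  rw [map_pow]
  rfl

omit [NeZero q] in
theorem fc_cop {X k m : ℕ} (hk : k ∈ QI q X) (hm : m.Coprime q) : k.Coprime m := by
  unfold QI at hk
  rw [Finset.mem_filter, Finset.mem_Icc] at hk
  refine Nat.coprime_of_dvd fun p hp h1 h2 => ?_
  have h3 : p ∈ k.primeFactors := Nat.mem_primeFactors.2 ⟨hp, h1, by omega⟩
  have h4 : p ∣ q := Nat.dvd_of_mem_primeFactors (hk.2 h3)
  have h5 : p ∣ 1 := by
    rw [← hm]
    exact Nat.dvd_gcd h2 h4
  exact hp.one_lt.ne' (Nat.dvd_one.1 h5)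

omit [NeZero q] in
theorem fc_inj {X k m k' m' : ℕ} (hk : k ∈ QI q X) (hm : m.Coprime q) (hk' : k' ∈ QI q X)
    (hm' : m'.Coprime q) (h : k * m = k' * m') : k = k' ∧ m = m' := by
  have e1 : k ∣ k' := (fc_cop hk hm').dvd_of_dvd_mul_right ⟨m, h.symm⟩
  have e2 : k' ∣ k := (fc_cop hk' hm).dvd_of_dvd_mul_right ⟨m', h⟩
  have e3 : k = k' := Nat.dvd_antisymm e1 e2
  have hk0 : 0 < k := by
    unfold QI at hk
    rw [Finset.mem_filter, Finset.mem_Icc] at hk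
    omega
  refine ⟨e3, ?_⟩
  rw [← e3] at h
  exact Nat.eq_of_mul_eq_mul_left hk0 h

/-- decomposition of a number -/
theorem fc_dec (q : ℕ) [NeZero q] {l : ℕ} (hl : 1 ≤ l) : ∃ k m : ℕ, k * m = l ∧
    k.primeFactors ⊆ q.primeFactors ∧ m.Coprime q := by
  classical
  have hl0 : l ≠ 0 := by omega
  refine ⟨∏ p ∈ l.primeFactors.filter (fun p => p ∣ q), p ^ l.factorization p,
    ∏ p ∈ l.primeFactors.filter (fun p => ¬ p ∣ q), p ^ l.factorization p, ?_, ?_, ?_⟩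
  · rw [Finset.prod_filter_mul_prod_filter_not]
    exact Nat.prod_factorization_pow_eq_self hl0
  · intro r hr
    have hrp := Nat.prime_of_mem_primeFactors hr
    obtain ⟨p, hp, h1⟩ := (hrp.prime.dvd_finsetProd_iff _).1 (Nat.dvd_of_mem_primeFactors hr)
    rw [Finset.mem_filter] at hp
    have h2 : r = p := (Nat.prime_dvd_prime_iff_eq hrp (Nat.prime_of_mem_primeFactors hp.1)).1
      (hrp.dvd_of_dvd_pow h1)
    exact Nat.mem_primeFactors.2 ⟨hrp, h2 ▸ hp.2, NeZero.ne q⟩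
  · refine Nat.Coprime.prod_left fun p hp => ?_
    rw [Finset.mem_filter] at hp
    exact Nat.Coprime.pow_left _ ((Nat.Prime.coprime_iff_not_dvd
      (Nat.prime_of_mem_primeFactors hp.1)).2 hp.2)

/-- the pairs of indices -/
noncomputable def fc_S (q X Y : ℕ) : Finset (ℕ × ℕ) :=
  QI q X ×ˢ (Finset.Icc 1 Y).filter (fun m => m.Coprime q)

omit [NeZero q] in
theorem fc_mem {X Y : ℕ} {p : ℕ × ℕ} (hp : p ∈ fc_S q X Y) : p.1 ∈ QI q X ∧ 1 ≤ p.1 ∧ p.1 ≤ X ∧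
    1 ≤ p.2 ∧ p.2 ≤ Y ∧ p.2.Coprime q := by
  unfold fc_S at hp
  rw [Finset.mem_product, Finset.mem_filter, Finset.mem_Icc] at hp
  have h := hp.1
  unfold QI at h
  rw [Finset.mem_filter, Finset.mem_Icc] at h
  exact ⟨hp.1, h.1.1, h.1.2, hp.2.1.1, hp.2.1.2, hp.2.2⟩

/-- the coefficients of the product polynomial -/
noncomputable def fc_c (q X Y : ℕ) (b : ℕ × ℕ → ℝ) (l : ℕ) : ℝ :=
  ∑ p ∈ fc_S q X Y, if p.1 * p.2 = l then b p else 0

omit [NeZero q] in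
theorem fc_c_apply {X Y : ℕ} (b : ℕ × ℕ → ℝ) {p : ℕ × ℕ} (hp : p ∈ fc_S q X Y) :
    fc_c q X Y b (p.1 * p.2) = b p := by
  unfold fc_c
  rw [Finset.sum_eq_single p]
  · rw [if_pos rfl]
  · intro p' hp' hne
    rw [if_neg]
    intro h
    apply hne
    have h1 := fc_mem hp
    have h2 := fc_mem hp'
    have h3 := fc_inj h2.1 h2.2.2.2.2.2 h1.1 h1.2.2.2.2.2 h
    exact Prod.ext h3.1 h3.2
  · intro h
    exact absurd hp h

omit [NeZero q] in
theorem fc_c_supp {N X Y : ℕ} (hX : X < N) (hY : Y < N) (b : ℕ × ℕ → ℝ) {l : ℕ}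
    (h : fc_c q X Y b l ≠ 0) : 1 ≤ l ∧ l ≤ X * Y ∧ l.primeFactors ⊆ Pr N := by
  unfold fc_c at h
  obtain ⟨p, hp, h1⟩ := Finset.exists_ne_zero_of_sum_ne_zero h
  have h2 : p.1 * p.2 = l := by
    by_contra h3
    exact h1 (if_neg h3)
  obtain ⟨-, a1, a2, a3, a4, -⟩ := fc_mem hp
  rw [← h2]
  refine ⟨Nat.mul_pos a1 a3, Nat.mul_le_mul a2 a4, ?_⟩
  rw [Nat.primeFactors_mul (by omega) (by omega)]
  exact Finset.union_subset (fmn_pf (by omega)) (fmn_pf (by omega))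

omit [NeZero q] in
theorem fc_c_sum {X Y : ℕ} (b : ℕ × ℕ → ℝ) (F : ℕ → ℝ) :
    ∑ l ∈ Finset.Icc 1 (X * Y), fc_c q X Y b l * F l =
      ∑ p ∈ fc_S q X Y, b p * F (p.1 * p.2) := by
  unfold fc_c
  simp_rw [Finset.sum_mul]
  rw [Finset.sum_comm]
  refine Finset.sum_congr rfl fun p hp => ?_
  obtain ⟨-, a1, a2, a3, a4, -⟩ := fc_mem hp
  rw [Finset.sum_eq_single (p.1 * p.2)]
  · rw [if_pos rfl]
  · intro l _ hne
    rw [if_neg (fun h => hne h.symm), zero_mul]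
  · intro h
    exact absurd (Finset.mem_Icc.2 ⟨Nat.mul_pos a1 a3, Nat.mul_le_mul a2 a4⟩) h

/-- the coefficient -/
noncomputable def fc_b (χ : DirichletCharacter ℂ q) (δ ε : ℝ) (n : ℕ) (a : ℕ → ℕ → ℝ)
    (p : ℕ × ℕ) : ℝ :=
  (χ p.2).re * (2 * Wt n (QQ δ ε n) (wwC q δ ε n (a p.1)) p.2 / Real.sqrt p.2)

theorem fc_FX {χ : DirichletCharacter ℂ q} (hχ : PQ χ) (δ ε : ℝ) (n X : ℕ) (a : ℕ → ℕ → ℝ)
    (x : ℕ → ℝ) : FX χ δ ε n X a x =
      ∑ l ∈ Finset.Icc 1 (X * X1 δ n), fc_c q X (X1 δ n) (fc_b χ δ ε n a) l * Um l x := by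
  rw [fc_c_sum, fc_S, Finset.sum_product]
  unfold FX FsC
  refine Finset.sum_congr rfl fun k hk => ?_
  rw [Finset.mul_sum]
  refine Finset.sum_congr rfl fun m hm => ?_
  rw [Finset.mem_filter, Finset.mem_Icc] at hm
  rw [fc_um hχ hm.2 (by omega), HPO_um_mul (fc_cop hk hm.2)]
  simp only [fc_b]
  ring

theorem fx_hpoly {χ : DirichletCharacter ℂ q} (hχ : PQ χ) {δ : ℝ} (ε : ℝ) {N n X : ℕ}
    (hX : X < N) (hn : X1 δ n < N) (a : ℕ → ℕ → ℝ) :
    HPoly (Pr N) (X * X1 δ n) (FX χ δ ε n X a) ∧ ∀ P : Measure (ℕ → ℝ), IsST (Pr N) P →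
      ∫ x, FX χ δ ε n X a x ^ 2 ∂P = ∑ k ∈ QI q X,
        ∑ m ∈ (Finset.Icc 1 (X1 δ n)).filter (fun m => m.Coprime q),
          (2 * Wt n (QQ δ ε n) (wwC q δ ε n (a k)) m / Real.sqrt m) ^ 2 := by
  refine ⟨⟨fc_c q X (X1 δ n) (fc_b χ δ ε n a), fun m hm => fc_c_supp hX hn _ hm,
    fc_FX hχ δ ε n X a⟩, fun P hP => ?_⟩
  simp_rw [fc_FX hχ]
  rw [LVB.st_sq (fmn_hI N) hP (fun m hm => fc_c_supp hX hn _ hm)]
  have h1 : ∑ m ∈ Finset.Icc 1 (X * X1 δ n), fc_c q X (X1 δ n) (fc_b χ δ ε n a) m ^ 2 =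
      ∑ l ∈ Finset.Icc 1 (X * X1 δ n), fc_c q X (X1 δ n) (fc_b χ δ ε n a) l *
        fc_c q X (X1 δ n) (fc_b χ δ ε n a) l := Finset.sum_congr rfl fun _ _ => sq _
  rw [h1, fc_c_sum, fc_S, Finset.sum_product]
  refine Finset.sum_congr rfl fun k hk => Finset.sum_congr rfl fun m hm => ?_
  have hp : (k, m) ∈ fc_S q X (X1 δ n) := by
    unfold fc_S
    exact Finset.mem_product.2 ⟨hk, hm⟩
  have h2 := fc_c_apply (fc_b χ δ ε n a) hp
  simp only at h2 ⊢
  rw [h2]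
  rw [Finset.mem_filter] at hm
  simp only [fc_b]
  rw [← sq, mul_pow, fc_sq hχ hm.2, one_mul]

/-- the integral of a product -/
theorem fc_int {N Z Y : ℕ} (hYN : Y < N) (hY : Y ≤ Z) {P : Measure (ℕ → ℝ)}
    (hP : IsST (Pr N) P) {b s : ℕ → ℝ}
    (hb : ∀ m, b m ≠ 0 → 1 ≤ m ∧ m ≤ Z ∧ m.primeFactors ⊆ Pr N) :
    ∫ x, (∑ n ∈ Finset.Icc 1 Z, b n * Um n x) * (∑ m ∈ Finset.Icc 1 Y, s m * Um m x) ∂P =
      ∑ m ∈ Finset.Icc 1 Y, b m * s m := by
  have hterm : ∀ n ∈ Finset.Icc 1 Z, ∀ m ∈ Finset.Icc 1 Y,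
      Integrable (fun x => b n * Um n x * (s m * Um m x)) P ∧
      ∫ x, b n * Um n x * (s m * Um m x) ∂P = if n = m then b n * s m else 0 := by
    intro n hn m hm
    rw [Finset.mem_Icc] at hn hm
    by_cases hbn : b n = 0
    · rw [hbn]
      simp
    have h6 : ∀ x : ℕ → ℝ, b n * Um n x * (s m * Um m x) = (b n * s m) * (Um n x * Um m x) := by
      intro x
      ring
    simp_rw [h6]
    refine ⟨(STO_int hP (hb n hbn).2.2 (fmn_pf (by omega))).const_mul _, ?_⟩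
    rw [integral_const_mul, STO_orth hP (by omega) (by omega) (hb n hbn).2.2
      (fmn_pf (by omega)), mul_ite, mul_one, mul_zero]
  simp_rw [Finset.sum_mul_sum]
  rw [integral_finsetSum _ fun n hn => integrable_finsetSum _ fun m hm => (hterm n hn m hm).1]
  rw [Finset.sum_congr rfl fun n hn => by
    rw [integral_finsetSum _ fun m hm => (hterm n hn m hm).1,
      Finset.sum_congr rfl fun m hm => (hterm n hn m hm).2]]
  rw [Finset.sum_comm]
  refine Finset.sum_congr rfl fun m hm => ?_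
  rw [Finset.sum_ite_eq', if_pos]
  rw [Finset.mem_Icc] at hm ⊢
  omega

/-- the sum of the squares -/
theorem fc_norm {χ : DirichletCharacter ℂ q} (hχ : PQ χ) {X : ℕ} {s : ℕ → ℝ}
    (hs : ∀ m, s m ≠ 0 → 1 ≤ m ∧ m ≤ X) :
    ∑ k ∈ QI q X, ∑ m ∈ Finset.Icc 1 X, sX χ s k m ^ 2 = ∑ m ∈ Finset.Icc 1 X, s m ^ 2 := by
  have h1 : ∑ k ∈ QI q X, ∑ m ∈ Finset.Icc 1 X, sX χ s k m ^ 2 =
      ∑ p ∈ fc_S q X X, s (p.1 * p.2) ^ 2 := by
    rw [fc_S, Finset.sum_product]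
    refine Finset.sum_congr rfl fun k _ => ?_
    rw [Finset.sum_filter]
    refine Finset.sum_congr rfl fun m _ => ?_
    unfold sX
    split_ifs with h
    · rw [mul_pow, fc_sq hχ h, one_mul]
    · norm_num
  rw [h1]
  have h2 : ∑ p ∈ (fc_S q X X).filter (fun p => p.1 * p.2 ≤ X), s (p.1 * p.2) ^ 2 =
      ∑ p ∈ fc_S q X X, s (p.1 * p.2) ^ 2 := by
    refine Finset.sum_subset (Finset.filter_subset _ _) fun p hp hp' => ?_
    have : ¬ p.1 * p.2 ≤ X := fun h => hp' (Finset.mem_filter.2 ⟨hp, h⟩)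
    have h0 : s (p.1 * p.2) = 0 := by
      by_contra h
      exact this (hs _ h).2
    rw [h0]
    norm_num
  rw [← h2]
  refine Finset.sum_bij (fun p _ => p.1 * p.2) ?_ ?_ ?_ ?_
  · intro p hp
    rw [Finset.mem_filter] at hp
    obtain ⟨-, a1, a2, a3, a4, -⟩ := fc_mem hp.1
    exact Finset.mem_Icc.2 ⟨Nat.mul_pos a1 a3, hp.2⟩
  · intro p hp p' hp' h
    rw [Finset.mem_filter] at hp hp'
    have h1 := fc_mem hp.1
    have h2 := fc_mem hp'.1
    have h3 := fc_inj h1.1 h1.2.2.2.2.2 h2.1 h2.2.2.2.2.2 h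
    exact Prod.ext h3.1 h3.2
  · intro l hl
    rw [Finset.mem_Icc] at hl
    obtain ⟨k, m, hkm, h3, h4⟩ := fc_dec q hl.1
    have hk0 : k ≠ 0 := by
      rintro rfl
      omega
    have hm0 : m ≠ 0 := by
      rintro rfl
      omega
    have hkX : k ≤ X := (Nat.le_mul_of_pos_right k (by omega)).trans (hkm ▸ hl.2)
    have hmX : m ≤ X := (Nat.le_mul_of_pos_left m (by omega)).trans (hkm ▸ hl.2)
    refine ⟨(k, m), ?_, hkm⟩
    rw [Finset.mem_filter]
    refine ⟨?_, by simpa only [hkm] using hl.2⟩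
    unfold fc_S QI
    rw [Finset.mem_product, Finset.mem_filter, Finset.mem_filter, Finset.mem_Icc, Finset.mem_Icc]
    exact ⟨⟨⟨by omega, hkX⟩, h3⟩, ⟨by omega, hmX⟩, h4⟩
  · intro p _
    rfl

end

open Classical in
theorem fc_cd {q z A X : ℕ} {a : ℕ → ℝ} (ha : ∀ k, a k ≠ 0 → smooth z k ∧ k ≤ A) {s : ℕ → ℝ}
    (hs : ∀ m, s m ≠ 0 → m ≤ X) :
    Summable (fun m : ℕ => if smooth z m ∧ m.Coprime q then
      (Ph A a m / Real.sqrt m - s m) ^ 2 else 0) := by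
  have h1 := (phi_al ha).1
  have h2 : Summable (fun m : ℕ => s m ^ 2) := by
    refine summable_of_ne_finset_zero (s := Finset.range (X + 1)) fun m hm => ?_
    rw [Finset.mem_range] at hm
    have : s m = 0 := by
      by_contra h
      have := hs m h
      omega
    rw [this]
    norm_num
  refine Summable.of_nonneg_of_le (fun m => ?_) (fun m => ?_) ((h1.mul_left 2).add (h2.mul_left 2))
  · split_ifs <;> positivity
  · by_cases h : smooth z m ∧ m.Coprime q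
    · simp only [if_pos h, if_pos h.1]
      have e1 : Ph A a m ^ 2 / m = (Ph A a m / Real.sqrt m) ^ 2 := by
        rw [div_pow, Real.sq_sqrt (Nat.cast_nonneg m)]
      rw [e1]
      nlinarith [sq_nonneg (Ph A a m / Real.sqrt m + s m)]
    · simp only [if_neg h]
      have := sq_nonneg (s m)
      split_ifs
      · positivity
      · linarith

/-- the correlation with the small factor -/
theorem fx_mean {δ : ℝ} (h0 : 0 < δ) (h1 : δ < 1 / 4) {ε : ℝ} (hε : 0 < ε) (C₀ : ℝ) (X : ℕ) :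
    ∃ ε₁ κ : ℝ, 0 < ε₁ ∧ 0 < κ ∧ ∀ ε₂ : ℝ, 0 < ε₂ → ε₂ ≤ ε₁ → ∃ (κ₁ : ℝ) (N₀ : ℕ), 0 < κ₁ ∧
    ∀ N : ℕ, N₀ ≤ N → ∀ (q : ℕ) [NeZero q] (χ : DirichletCharacter ℂ q), PQ χ →
    (q : ℝ) ≤ (N : ℝ) ^ κ₁ → ∀ s : ℕ → ℝ, (∀ m, s m ≠ 0 → 1 ≤ m ∧ m ≤ X) →
    ∑ m ∈ Finset.Icc 1 X, s m ^ 2 ≤ C₀ → ∀ a : ℕ → ℕ → ℝ,
    (∀ k ∈ QI q X, ShC q (zz (N * q ^ 2)) (KA ε₂ (N * q ^ 2)) (a k) ∧
      cdC q (zz (N * q ^ 2)) (KA ε₂ (N * q ^ 2)) (a k) (sX χ s k) ≤ κ) →
    ∀ P : Measure (ℕ → ℝ), IsST (Pr N) P →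
      |∫ x, FX χ δ ε₂ (N * q ^ 2) X a x * (∑ m ∈ Finset.Icc 1 X, s m * Um m x) ∂P -
        2 * ∑ m ∈ Finset.Icc 1 X, s m ^ 2| ≤ ε := by
  classical
  set κ : ℝ := (ε / (4 * (X + 1))) ^ 2 / (|C₀| + 1) with hκ
  have hC1 : 0 < |C₀| + 1 := by positivity
  have hκ0 : 0 < κ := by positivity
  refine ⟨1 / 32, κ, by norm_num, hκ0, fun ε₂ h2 h3 => ?_⟩
  obtain ⟨N₁, hN₁⟩ := ww_boundC h0 h1 h2
  obtain ⟨N₂, hN₂⟩ := sizes h0 h1 (ε := 1 / (X + 1)) (by positivity)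
  set B : ℝ := 16 * Real.pi * (X : ℝ) ^ 5 * Real.sqrt |C₀| / ε with hB
  have hpi := Real.pi_pos
  have hB0 : 0 ≤ B := by positivity
  refine ⟨δ / 8, max (max N₁ N₂) (max (X ^ 2 + 2) ⌈B ^ 4⌉₊), by positivity, ?_⟩
  intro N hN q _ χ hχ hq s hs hC a ha P hP
  set n : ℕ := N * q ^ 2 with hn
  have hq1 : 1 ≤ q := Nat.one_le_iff_ne_zero.2 (NeZero.ne q)
  have hNn : N ≤ n := Nat.le_mul_of_pos_right N (by positivity)
  have hNN₁ : N₁ ≤ n := ((le_max_left _ _).trans ((le_max_left _ _).trans hN)).trans hNn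
  have hNN₂ : N₂ ≤ n := ((le_max_right _ _).trans ((le_max_left _ _).trans hN)).trans hNn
  have hNX : X ^ 2 + 2 ≤ N := (le_max_left _ _).trans ((le_max_right _ _).trans hN)
  have hNB : ⌈B ^ 4⌉₊ ≤ N := (le_max_right _ _).trans ((le_max_right _ _).trans hN)
  have hN2 : 2 ≤ N := by omega
  have hn2 : 2 ≤ n := hN2.trans hNn
  have hnB : B ^ 4 ≤ n := (Nat.le_ceil _).trans (by exact_mod_cast hNB.trans hNn)
  have hNR : (1 : ℝ) < N := by exact_mod_cast (by omega : 1 < N)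
  have hnR : (1 : ℝ) ≤ n := by exact_mod_cast (by omega : 1 ≤ n)
  have hn0 : (0 : ℝ) < n := by linarith
  have hXN : X < N := by nlinarith
  obtain ⟨_, hz2, hzM, _, hzl, _⟩ := hN₂ n hNN₂
  have hM2 : 2 ≤ MM δ n := by omega
  -- sizes
  have hX1N : X1 δ n < N := by
    have e1 : (n : ℝ) ≤ (N : ℝ) ^ (1 + δ / 4) := by
      have : (n : ℝ) = N * (q : ℝ) ^ 2 := by rw [hn]; push_cast; ring
      rw [this, Real.rpow_add (by linarith), Real.rpow_one]
      apply mul_le_mul_of_nonneg_left _ (by linarith)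
      calc (q : ℝ) ^ 2 ≤ ((N : ℝ) ^ (δ / 8)) ^ 2 := pow_le_pow_left₀ (by positivity) hq 2
        _ = (N : ℝ) ^ (δ / 4) := by
            rw [← Real.rpow_natCast, ← Real.rpow_mul (by linarith)]
            congr 1
            push_cast
            ring
    have e2 : ((X1 δ n : ℕ) : ℝ) ≤ (n : ℝ) ^ (1 - δ / 2) := Nat.floor_le (by positivity)
    have e3 : (n : ℝ) ^ (1 - δ / 2) ≤ ((N : ℝ) ^ (1 + δ / 4)) ^ (1 - δ / 2) :=
      Real.rpow_le_rpow (by positivity) e1 (by linarith)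
    rw [← Real.rpow_mul (by linarith)] at e3
    have e4 : (N : ℝ) ^ ((1 + δ / 4) * (1 - δ / 2)) < (N : ℝ) ^ (1 : ℝ) := by
      apply Real.rpow_lt_rpow_of_exponent_lt hNR
      nlinarith
    rw [Real.rpow_one] at e4
    exact_mod_cast (e2.trans e3).trans_lt e4
  have hXX1 : X ≤ X1 δ n := by
    apply Nat.le_floor
    have e1 : (X : ℝ) ^ 2 ≤ n := by
      have : X ^ 2 ≤ n := by omega
      exact_mod_cast this
    calc (X : ℝ) = ((X : ℝ) ^ 2) ^ (1 / 2 : ℝ) := by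
          rw [← Real.sqrt_eq_rpow, Real.sqrt_sq (Nat.cast_nonneg X)]
      _ ≤ (n : ℝ) ^ (1 / 2 : ℝ) := Real.rpow_le_rpow (by positivity) e1 (by norm_num)
      _ ≤ (n : ℝ) ^ (1 - δ / 2) := Real.rpow_le_rpow_of_exponent_le hnR (by linarith)
  have hXz : X ≤ zz n := by
    have e1 : (X : ℝ) + 1 ≤ Real.log (zz n) := by
      have : (1 : ℝ) / (1 / (X + 1)) = X + 1 := by
        rw [one_div_one_div]
      rwa [this] at hzl
    have e2 : Real.log (zz n) ≤ (zz n : ℝ) - 1 := by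
      apply Real.log_le_sub_one_of_pos
      exact_mod_cast (by omega : 0 < zz n)
    have e3 : (X : ℝ) ≤ zz n := by linarith
    exact_mod_cast e3
  have hsm : ∀ m, 1 ≤ m → m ≤ X → smooth (zz n) m := by
    intro m hm1 hm2
    refine ⟨by omega, fun p hp hpm => ?_⟩
    exact ((Nat.le_of_dvd (by omega) hpm).trans hm2).trans hXz
  set z := zz n with hz
  set M := MM δ n with hM
  set A := KA ε₂ n with hA
  have hC0 : 0 ≤ C₀ := (Finset.sum_nonneg fun m _ => sq_nonneg (s m)).trans hC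
  have hCabs : |C₀| = C₀ := abs_of_nonneg hC0
  -- the integral
  have hint : ∫ x, FX χ δ ε₂ n X a x * (∑ m ∈ Finset.Icc 1 X, s m * Um m x) ∂P =
      ∑ k ∈ QI q X, ∑ m ∈ Finset.Icc 1 X,
        2 * Wt n (QQ δ ε₂ n) (wwC q δ ε₂ n (a k)) m / Real.sqrt m * sX χ s k m := by
    simp_rw [fc_FX hχ]
    rcases Nat.eq_zero_or_pos X with hX0 | hX0
    · subst hX0
      have : QI q 0 = ∅ := by
        unfold QI
        simp
      rw [this]
      simp
    have hX1 : 1 ≤ X1 δ n := le_trans hX0 hXX1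
    rw [fc_int hXN (Nat.le_mul_of_pos_right X hX1) hP (fun m hm => fc_c_supp hXN hX1N _ hm)]
    have e1 : ∑ m ∈ Finset.Icc 1 X, fc_c q X (X1 δ n) (fc_b χ δ ε₂ n a) m * s m =
        ∑ m ∈ Finset.Icc 1 (X * X1 δ n), fc_c q X (X1 δ n) (fc_b χ δ ε₂ n a) m * s m := by
      refine Finset.sum_subset (Finset.Icc_subset_Icc_right (Nat.le_mul_of_pos_right X hX1))
        fun m hm hm' => ?_
      rw [Finset.mem_Icc] at hm hm'
      have : s m = 0 := by
        by_contra h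
        have := hs m h
        omega
      rw [this, mul_zero]
    rw [e1, fc_c_sum, fc_S, Finset.sum_product]
    refine Finset.sum_congr rfl fun k hk => ?_
    have hk1 : 1 ≤ k := by
      unfold QI at hk
      rw [Finset.mem_filter, Finset.mem_Icc] at hk
      exact hk.1.1
    rw [Finset.sum_filter]
    have e2 : ∑ m ∈ Finset.Icc 1 X,
        2 * Wt n (QQ δ ε₂ n) (wwC q δ ε₂ n (a k)) m / Real.sqrt m * sX χ s k m =
        ∑ m ∈ Finset.Icc 1 (X1 δ n),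
        2 * Wt n (QQ δ ε₂ n) (wwC q δ ε₂ n (a k)) m / Real.sqrt m * sX χ s k m := by
      refine Finset.sum_subset (Finset.Icc_subset_Icc_right hXX1) fun m hm hm' => ?_
      rw [Finset.mem_Icc] at hm hm'
      have h5 : s (k * m) = 0 := by
        by_contra h
        have h6 := (hs _ h).2
        have h7 : m ≤ k * m := Nat.le_mul_of_pos_left m hk1
        omega
      unfold sX
      rw [h5]
      split_ifs <;> ring
    rw [e2]
    refine Finset.sum_congr rfl fun m hm => ?_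
    unfold sX
    split_ifs with h
    · simp only [fc_b]
      ring
    · ring
  rw [hint, ← fc_norm hχ hs]
  set D : ℕ → ℕ → ℝ := fun k m => Wt n (QQ δ ε₂ n) (wwC q δ ε₂ n (a k)) m -
    WW (QQ δ ε₂ n) (wwC q δ ε₂ n (a k)) m with hD
  set t : ℕ → ℕ → ℝ := fun k m => if smooth z m ∧ m.Coprime q then
    Ph A (a k) m / Real.sqrt m - sX χ s k m else 0 with ht
  have hWW : ∀ k ∈ QI q X, ∀ m, 1 ≤ m → smooth z m → m.Coprime q →
      WW (QQ δ ε₂ n) (wwC q δ ε₂ n (a k)) m = Ph A (a k) m := by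
    intro k hk m hm hsm hmq
    have e1 : WW (QQ δ ε₂ n) (wwC q δ ε₂ n (a k)) m = WW (QA M 2 A) (wAC q z M 2 A (a k)) m := rfl
    rw [e1, ww_factorC (ha k hk).1.sup (by norm_num) hm hmq, wr_rop z M 2 hm, fmn_rop hsm,
      wr_one hM2, mul_one]
  have hterm : ∀ k ∈ QI q X, ∀ m ∈ Finset.Icc 1 X,
      2 * Wt n (QQ δ ε₂ n) (wwC q δ ε₂ n (a k)) m / Real.sqrt m * sX χ s k m -
        2 * sX χ s k m ^ 2 =
      2 * (sX χ s k m * t k m) + 2 * (sX χ s k m * (D k m / Real.sqrt m)) := by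
    intro k hk m hm
    rw [Finset.mem_Icc] at hm
    by_cases hmq : m.Coprime q
    · have h4 := hsm m hm.1 hm.2
      have h5 : Wt n (QQ δ ε₂ n) (wwC q δ ε₂ n (a k)) m = Ph A (a k) m + D k m := by
        rw [hD, ← hWW k hk m hm.1 h4 hmq]
        ring
      rw [h5]
      simp only [ht, if_pos (And.intro h4 hmq)]
      ring
    · have : sX χ s k m = 0 := if_neg hmq
      rw [this]
      ring
  have hsum : ∑ k ∈ QI q X, ∑ m ∈ Finset.Icc 1 X,
        2 * Wt n (QQ δ ε₂ n) (wwC q δ ε₂ n (a k)) m / Real.sqrt m * sX χ s k m -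
      2 * ∑ k ∈ QI q X, ∑ m ∈ Finset.Icc 1 X, sX χ s k m ^ 2 =
      2 * (∑ k ∈ QI q X, ∑ m ∈ Finset.Icc 1 X, sX χ s k m * t k m) +
        2 * ∑ k ∈ QI q X, ∑ m ∈ Finset.Icc 1 X, sX χ s k m * (D k m / Real.sqrt m) := by
    rw [Finset.mul_sum, ← Finset.sum_sub_distrib, Finset.mul_sum, Finset.mul_sum,
      ← Finset.sum_add_distrib]
    refine Finset.sum_congr rfl fun k hk => ?_
    rw [Finset.mul_sum, ← Finset.sum_sub_distrib, Finset.sum_congr rfl (hterm k hk),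
      Finset.sum_add_distrib, Finset.mul_sum, Finset.mul_sum]
  rw [hsum]
  have hX0 : (0 : ℝ) ≤ X := Nat.cast_nonneg X
  have hcard : ((QI q X).card : ℝ) ≤ X := by
    have : (QI q X).card ≤ X := by
      unfold QI
      refine (Finset.card_filter_le _ _).trans ?_
      rw [Nat.card_Icc, Nat.add_sub_cancel]
    exact_mod_cast this
  have hsX : ∀ k ∈ QI q X, ∑ m ∈ Finset.Icc 1 X, sX χ s k m ^ 2 ≤ C₀ := by
    intro k hk
    refine le_trans ?_ hC
    rw [← fc_norm hχ hs]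
    exact Finset.single_le_sum (f := fun k => ∑ m ∈ Finset.Icc 1 X, sX χ s k m ^ 2)
      (fun i _ => Finset.sum_nonneg fun m _ => sq_nonneg _) hk
  -- first part
  have hfirst : |∑ k ∈ QI q X, ∑ m ∈ Finset.Icc 1 X, sX χ s k m * t k m| ≤ ε / 4 := by
    refine (Finset.abs_sum_le_sum_abs _ _).trans ?_
    have h4 : ∀ k ∈ QI q X, |∑ m ∈ Finset.Icc 1 X, sX χ s k m * t k m| ≤ ε / (4 * (X + 1)) := by
      intro k hk
      have hcdS := fc_cd (q := q) (X := X) (fun l hl => ⟨((ha k hk).1.sup l hl).1,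
        ((ha k hk).1.sup l hl).2.1⟩) (s := sX χ s k) (fun m hm => by
          unfold sX at hm
          split_ifs at hm with h
          · have h6 := (hs _ (right_ne_zero_of_mul hm)).2
            have h8 : 1 ≤ k := by
              unfold QI at hk
              rw [Finset.mem_filter, Finset.mem_Icc] at hk
              exact hk.1.1
            have h7 : m ≤ k * m := Nat.le_mul_of_pos_left m h8
            omega
          · exact absurd rfl hm)
      have ht2 : ∑ m ∈ Finset.Icc 1 X, t k m ^ 2 ≤ κ := by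
        refine le_trans ?_ (ha k hk).2
        have e1 : ∀ m ∈ Finset.Icc 1 X, t k m ^ 2 =
            if smooth z m ∧ m.Coprime q then
              (Ph A (a k) m / Real.sqrt m - sX χ s k m) ^ 2 else 0 := by
          intro m _
          simp only [ht]
          split_ifs
          · rfl
          · norm_num
        rw [Finset.sum_congr rfl e1]
        unfold cdC
        refine hcdS.sum_le_tsum _ fun m _ => ?_
        split_ifs <;> positivity
      apply abs_le_of_sq_le_sq _ (by positivity)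
      calc (∑ m ∈ Finset.Icc 1 X, sX χ s k m * t k m) ^ 2
          ≤ (∑ m ∈ Finset.Icc 1 X, sX χ s k m ^ 2) * ∑ m ∈ Finset.Icc 1 X, t k m ^ 2 :=
            Finset.sum_mul_sq_le_sq_mul_sq _ _ _
        _ ≤ C₀ * κ := mul_le_mul (hsX k hk) ht2 (Finset.sum_nonneg fun m _ => sq_nonneg _) hC0
        _ ≤ (|C₀| + 1) * κ := by
            apply mul_le_mul_of_nonneg_right _ hκ0.le
            linarith [le_abs_self C₀]
        _ = (ε / (4 * (X + 1))) ^ 2 := by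
            rw [hκ]
            field_simp
    refine (Finset.sum_le_sum h4).trans ?_
    rw [Finset.sum_const, nsmul_eq_mul]
    calc ((QI q X).card : ℝ) * (ε / (4 * (X + 1))) ≤ X * (ε / (4 * (X + 1))) :=
          mul_le_mul_of_nonneg_right hcard (by positivity)
      _ ≤ (X + 1) * (ε / (4 * (X + 1))) :=
          mul_le_mul_of_nonneg_right (by linarith) (by positivity)
      _ = ε / 4 := by field_simp
  -- second part
  have hsecond : |∑ k ∈ QI q X, ∑ m ∈ Finset.Icc 1 X, sX χ s k m * (D k m / Real.sqrt m)| ≤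
      ε / 4 := by
    refine (Finset.abs_sum_le_sum_abs _ _).trans ?_
    have h4 : ∀ k ∈ QI q X, |∑ m ∈ Finset.Icc 1 X, sX χ s k m * (D k m / Real.sqrt m)| ≤
        X * (Real.sqrt C₀ * (4 * Real.pi * (n : ℝ) ^ (4 * ε₂) * (X : ℝ) ^ 3 / Real.sqrt n)) := by
      intro k hk
      have hw := (hN₁ n hNN₁ q hq1 (a k) (ha k hk).1).1
      refine (Finset.abs_sum_le_sum_abs _ _).trans ?_
      have h5 : ∀ m ∈ Finset.Icc 1 X, |sX χ s k m * (D k m / Real.sqrt m)| ≤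
          Real.sqrt C₀ * (4 * Real.pi * (n : ℝ) ^ (4 * ε₂) * (X : ℝ) ^ 3 / Real.sqrt n) := by
        intro m hm
        have hm' := Finset.mem_Icc.1 hm
        have hsb : |sX χ s k m| ≤ Real.sqrt C₀ := by
          apply Real.abs_le_sqrt
          refine le_trans ?_ (hsX k hk)
          exact Finset.single_le_sum (f := fun m => sX χ s k m ^ 2) (fun i _ => sq_nonneg _) hm
        rw [abs_mul]
        apply mul_le_mul hsb _ (abs_nonneg _) (Real.sqrt_nonneg _)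
        have h5 : |D k m| ≤ 4 * Real.pi * (n : ℝ) ^ (4 * ε₂) * (m : ℝ) ^ 3 / Real.sqrt n :=
          fmn_wt (by omega) hm'.1 (by positivity) hw
        have h6 : 1 ≤ Real.sqrt m := by
          rw [Real.one_le_sqrt]
          exact_mod_cast hm'.1
        have h7 : |D k m / Real.sqrt m| ≤ |D k m| := by
          rw [abs_div, abs_of_pos (by linarith : 0 < Real.sqrt m)]
          exact div_le_self (abs_nonneg _) h6
        refine h7.trans (h5.trans ?_)
        apply div_le_div_of_nonneg_right _ (Real.sqrt_nonneg _)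
        have h8 : (m : ℝ) ^ 3 ≤ (X : ℝ) ^ 3 :=
          pow_le_pow_left₀ (Nat.cast_nonneg m) (by exact_mod_cast hm'.2) 3
        apply mul_le_mul_of_nonneg_left h8
        positivity
      refine (Finset.sum_le_sum h5).trans ?_
      rw [Finset.sum_const, Nat.card_Icc, Nat.add_sub_cancel, nsmul_eq_mul]
    refine (Finset.sum_le_sum h4).trans ?_
    rw [Finset.sum_const, nsmul_eq_mul]
    have h9 : ((QI q X).card : ℝ) * (X * (Real.sqrt C₀ *
        (4 * Real.pi * (n : ℝ) ^ (4 * ε₂) * (X : ℝ) ^ 3 / Real.sqrt n))) ≤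
        X * (X * (Real.sqrt C₀ *
        (4 * Real.pi * (n : ℝ) ^ (4 * ε₂) * (X : ℝ) ^ 3 / Real.sqrt n))) :=
      mul_le_mul_of_nonneg_right hcard (by positivity)
    refine h9.trans ?_
    have h10 : (X : ℝ) * (X * (Real.sqrt C₀ *
        (4 * Real.pi * (n : ℝ) ^ (4 * ε₂) * (X : ℝ) ^ 3 / Real.sqrt n))) =
        4 * Real.pi * (X : ℝ) ^ 5 * Real.sqrt C₀ * (n : ℝ) ^ (4 * ε₂) / Real.sqrt n := by ring
    rw [h10]
    have h11 : (n : ℝ) ^ (4 * ε₂) ≤ (n : ℝ) ^ (1 / 4 : ℝ) :=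
      Real.rpow_le_rpow_of_exponent_le hnR (by linarith)
    have h12 : Real.sqrt n = (n : ℝ) ^ (1 / 4 : ℝ) * (n : ℝ) ^ (1 / 4 : ℝ) := by
      rw [← Real.rpow_add hn0, Real.sqrt_eq_rpow]
      norm_num
    have h13 : B ≤ (n : ℝ) ^ (1 / 4 : ℝ) := by
      have e1 : B = (B ^ 4) ^ (1 / 4 : ℝ) := by
        rw [← Real.rpow_natCast, ← Real.rpow_mul hB0]
        norm_num
      rw [e1]
      exact Real.rpow_le_rpow (by positivity) hnB (by norm_num)
    have hN14 : 0 < (n : ℝ) ^ (1 / 4 : ℝ) := by positivity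
    rw [h12, div_le_iff₀ (by positivity)]
    have h14 : 16 * Real.pi * (X : ℝ) ^ 5 * Real.sqrt C₀ ≤ ε * (n : ℝ) ^ (1 / 4 : ℝ) := by
      rw [hB, div_le_iff₀ hε, hCabs] at h13
      linarith
    calc 4 * Real.pi * (X : ℝ) ^ 5 * Real.sqrt C₀ * (n : ℝ) ^ (4 * ε₂)
        ≤ 4 * Real.pi * (X : ℝ) ^ 5 * Real.sqrt C₀ * (n : ℝ) ^ (1 / 4 : ℝ) :=
          mul_le_mul_of_nonneg_left h11 (by positivity)
      _ ≤ (ε / 4 * (n : ℝ) ^ (1 / 4 : ℝ)) * (n : ℝ) ^ (1 / 4 : ℝ) := by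
          apply mul_le_mul_of_nonneg_right _ hN14.le
          linarith
      _ = _ := by ring
  calc |2 * (∑ k ∈ QI q X, ∑ m ∈ Finset.Icc 1 X, sX χ s k m * t k m) +
        2 * ∑ k ∈ QI q X, ∑ m ∈ Finset.Icc 1 X, sX χ s k m * (D k m / Real.sqrt m)|
      ≤ |2 * (∑ k ∈ QI q X, ∑ m ∈ Finset.Icc 1 X, sX χ s k m * t k m)| +
        |2 * ∑ k ∈ QI q X, ∑ m ∈ Finset.Icc 1 X, sX χ s k m * (D k m / Real.sqrt m)| :=
        abs_add_le _ _
    _ = 2 * |∑ k ∈ QI q X, ∑ m ∈ Finset.Icc 1 X, sX χ s k m * t k m| +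
        2 * |∑ k ∈ QI q X, ∑ m ∈ Finset.Icc 1 X, sX χ s k m * (D k m / Real.sqrt m)| := by
        rw [abs_mul, abs_mul, abs_two]
    _ ≤ _ := by linarith

end Pool.Agent.TK
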