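import Pool.Agent.Lib_helper41.TK.W.TG
import Pool.Agent.Lib_helper41.TK.W.TH
import Pool.Agent.Lib_helper68.KSLF.BGI
import Pool.Agent.Lib_helper61.FG.P.GB

/-! TK, block TI. -/

set_option autoImplicit false

namespace Pool.Agent.TK

open Pool.Agent.LEV Pool.Agent.LVB Pool.Agent.KSL
open Pool.Agent.LK (PQ)
open Pool.Agent.FG61 (mu phi cc ff AA Lam)
open Complex MeasureTheory Filter Topology UpperHalfPlane ModularGroup ProbabilityTheory
open scoped MatrixGroups Modular ENNReal ModularForm ComplexConjugate ContDiff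

theorem ti_g_sum {g : ℝ → ℝ} {G : ℝ} (hg : Kg g G) {y : ℝ} (hy : 0 < y) :
    Summable (fun m : ℕ => g ((m + 1) * y)) := by
  have hI : ∀ α β : ℝ, 0 ≤ α → α ≤ β → IntervalIntegrable g volume α β := by
    intro α β h1 h2
    rw [intervalIntegrable_iff_integrableOn_Ioc_of_le h2]
    exact hg.int.mono_set fun u hu => h1.trans_lt hu.1
  refine summable_of_sum_range_le (c := y⁻¹ * ∫ u in Set.Ioi (0 : ℝ), g u)
    (fun m => hg.nonneg _) fun K => ?_
  have h1 : ∀ m : ℕ, g ((m + 1) * y) ≤ y⁻¹ * ∫ u in ((m : ℕ) * y)..(((m + 1 : ℕ) : ℝ) * y), g u := by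
    intro m
    have hm0 : 0 ≤ (m : ℝ) * y := by positivity
    have hm1 : (m : ℝ) * y ≤ ((m + 1 : ℕ) : ℝ) * y := by
      push_cast
      nlinarith
    have h2 : ∫ u in ((m : ℕ) * y)..(((m + 1 : ℕ) : ℝ) * y), g ((m + 1) * y) ≤
        ∫ u in ((m : ℕ) * y)..(((m + 1 : ℕ) : ℝ) * y), g u := by
      refine intervalIntegral.integral_mono_on_of_le_Ioo hm1 intervalIntegrable_const
        (hI _ _ hm0 hm1) fun u hu => ?_
      refine hg.anti (hm0.trans_lt hu.1) ?_ ?_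
      · show 0 < ((m : ℝ) + 1) * y
        positivity
      · have := hu.2.le
        push_cast at this
        exact this
    rw [intervalIntegral.integral_const, smul_eq_mul] at h2
    have h3 : ((m + 1 : ℕ) : ℝ) * y - (m : ℕ) * y = y := by
      push_cast
      ring
    rw [h3] at h2
    rw [← div_eq_inv_mul, le_div_iff₀ hy]
    linarith
  refine (Finset.sum_le_sum fun m _ => h1 m).trans ?_
  rw [← Finset.mul_sum]
  apply mul_le_mul_of_nonneg_left _ (by positivity)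
  have h4 := intervalIntegral.sum_integral_adjacent_intervals (f := g) (μ := volume)
    (a := fun k : ℕ => (k : ℝ) * y) (n := K) (fun k _ => hI _ _ (by positivity) (by
      push_cast
      nlinarith))
  rw [h4, Nat.cast_zero, zero_mul, intervalIntegral.integral_of_le (by positivity)]
  refine setIntegral_mono_set hg.int (Filter.Eventually.of_forall fun u => hg.nonneg u) ?_
  have hss : Set.Ioc (0 : ℝ) (K * y) ⊆ Set.Ioi 0 := fun u hu => hu.1
  exact hss.eventuallyLE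

theorem ti_TT_bd (Q : ℕ) (w : ℕ → ℝ) (D : ℝ) (m : ℕ) :
    |TT Q w D m| ≤ ∑ c ∈ Finset.Icc 1 Q, |w c| * ∑ d ∈ c.divisors, (d : ℝ) := by
  unfold TT
  refine (Finset.abs_sum_le_sum_abs _ _).trans ?_
  refine (Finset.sum_le_sum_of_subset_of_nonneg (Finset.filter_subset _ _)
    fun _ _ _ => abs_nonneg _).trans ?_
  refine Finset.sum_le_sum fun c hc => ?_
  rw [Finset.mem_Icc] at hc
  rw [abs_mul]
  apply mul_le_mul_of_nonneg_left _ (abs_nonneg _)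
  refine (Pool.Agent.FG61.GB_cc_abs c m).trans ?_
  refine Finset.sum_le_sum_of_subset_of_nonneg ?_ fun _ _ _ => Nat.cast_nonneg _
  exact Nat.divisors_subset_of_dvd (by omega) (Nat.gcd_dvd_left c m)

theorem ti_summ {g : ℝ → ℝ} {G : ℝ} (hg : Kg g G) (q Q : ℕ) (w : ℕ → ℝ) {y : ℝ} (hy : 0 < y)
    (D : ℝ) : Summable (fun m : ℕ => if (m + 1).Coprime q then g ((m + 1) * y) *
        TT Q w D (m + 1) ^ 2 else 0) := by
  have h1 := (ti_g_sum hg hy).mul_right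
    ((∑ c ∈ Finset.Icc 1 Q, |w c| * ∑ d ∈ c.divisors, (d : ℝ)) ^ 2)
  refine Summable.of_nonneg_of_le (fun m => ?_) (fun m => ?_) h1
  · split_ifs
    · exact mul_nonneg (hg.nonneg _) (sq_nonneg _)
    · exact le_rfl
  · have h2 : TT Q w D (m + 1) ^ 2 ≤
        (∑ c ∈ Finset.Icc 1 Q, |w c| * ∑ d ∈ c.divisors, (d : ℝ)) ^ 2 := by
      rw [← sq_abs]
      exact pow_le_pow_left₀ (abs_nonneg _) (ti_TT_bd Q w D (m + 1)) 2
    split_ifs
    · exact mul_le_mul_of_nonneg_left h2 (hg.nonneg _)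
    · exact mul_nonneg (hg.nonneg _) (sq_nonneg _)

theorem ti_nonneg {g : ℝ → ℝ} {G : ℝ} (hg : Kg g G) (q : ℕ) (δ ε : ℝ) (n : ℕ) (a : ℕ → ℝ)
    (y : ℝ) : 0 ≤ hN q δ ε n a g y := by
  unfold hN
  refine tsum_nonneg fun m => ?_
  split_ifs
  · exact mul_nonneg (hg.nonneg _) (sq_nonneg _)
  · exact le_rfl

theorem ti_meas {g : ℝ → ℝ} {G : ℝ} (hg : Kg g G) (q : ℕ) (δ ε : ℝ) (n : ℕ) (a : ℕ → ℝ)
    {α β : ℝ} (hα : 0 < α) (hβ : α ≤ β) :
    AEStronglyMeasurable (hN q δ ε n a g) (volume.restrict (Set.Ioo α β)) := by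
  unfold hN
  refine aestronglyMeasurable_of_tendsto_ae atTop
    (f := fun K y => ∑ m ∈ Finset.range K, if (m + 1).Coprime q then g ((m + 1) * y) *
      TT (QQ δ ε n) (wwC q δ ε n a) (2 / (y * Real.sqrt n)) (m + 1) ^ 2 else 0)
    (fun K => ?_) ?_
  · apply Finset.aestronglyMeasurable_fun_sum
    intro m _
    by_cases hm : (m + 1).Coprime q
    · simp only [if_pos hm]
      apply AEStronglyMeasurable.mul
      · have g1 := (bgi_g_bound hg hα.le hβ (n := m + 1) (by omega)).1.1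
        push_cast at g1
        exact g1
      · exact ((bgi_TT_meas _ _ _ (m + 1)).pow_const 2).aestronglyMeasurable
    · simp only [if_neg hm]
      exact aestronglyMeasurable_const
  · rw [ae_restrict_iff' measurableSet_Ioo]
    apply Filter.Eventually.of_forall
    intro y hy
    exact (ti_summ hg q _ _ (hα.trans hy.1) _).hasSum.tendsto_sum_nat

theorem ti_dom {F H : ℝ → ℝ} {α β : ℝ}
    (hm : AEStronglyMeasurable F (volume.restrict (Set.Ioo α β)))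
    (h0 : ∀ y ∈ Set.Ioo α β, 0 ≤ F y) (h1 : ∀ y ∈ Set.Ioo α β, F y ≤ H y)
    (hH : IntegrableOn H (Set.Ioo α β)) :
    IntegrableOn F (Set.Ioo α β) ∧ ∫ y in Set.Ioo α β, F y ≤ ∫ y in Set.Ioo α β, H y := by
  have hI : IntegrableOn F (Set.Ioo α β) := by
    refine Integrable.mono' hH hm ?_
    rw [ae_restrict_iff' measurableSet_Ioo]
    apply Filter.Eventually.of_forall
    intro y hy
    rw [Real.norm_eq_abs, abs_of_nonneg (h0 y hy)]
    exact h1 y hy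
  exact ⟨hI, setIntegral_mono_on hI hH measurableSet_Ioo h1⟩

open Classical in
/-- the integral of the smooth part -/
theorem ti_smooth {g : ℝ → ℝ} {G : ℝ} (hg : Kg g G) {q z A : ℕ} {a s : ℕ → ℝ}
    (ha : ∀ k, a k ≠ 0 → smooth z k ∧ k ≤ A) (hs : ∀ m, s m ≠ 0 → m ≤ A)
    {y0 y1 : ℝ} (h0 : 0 ≤ y0) (h1 : y0 ≤ y1)
    (hsum : ∀ y ∈ Set.Ioo y0 y1, Summable (fun n : ℕ => if smooth z n ∧ n.Coprime q then
      g (n * y) * Ph A a n ^ 2 else 0)) :
    IntegrableOn (fun y => ∑' n : ℕ, if smooth z n ∧ n.Coprime q then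
      g (n * y) * Ph A a n ^ 2 else 0) (Set.Ioo y0 y1) ∧
    ∫ y in Set.Ioo y0 y1, ∑' n : ℕ, (if smooth z n ∧ n.Coprime q then
      g (n * y) * Ph A a n ^ 2 else 0) ≤
      cnC q z A a * (A * (G * y1)) + cdC q z A a s * ∫ u in Set.Ioi (0 : ℝ), g u := by
  set Ig := ∫ u in Set.Ioi (0 : ℝ), g u with hIg
  have hIg0 : 0 ≤ Ig := setIntegral_nonneg measurableSet_Ioi fun u _ => hg.nonneg u
  have hG : 0 ≤ G := (hg.nonneg 1).trans (hg.bdd 1)
  have hy1 : 0 ≤ y1 := h0.trans h1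
  have S1' : ∀ m : ℕ, 0 ≤ (if smooth z m ∧ m.Coprime q then Ph A a m ^ 2 / m else 0) := by
    intro m
    split_ifs
    · positivity
    · exact le_rfl
  have S1 : Summable (fun m : ℕ => if smooth z m ∧ m.Coprime q then Ph A a m ^ 2 / m else 0) := by
    refine Summable.of_nonneg_of_le S1' (fun m => ?_) (phi_al ha).1
    by_cases h2 : smooth z m
    · by_cases h3 : m.Coprime q
      · rw [if_pos ⟨h2, h3⟩, if_pos h2]
      · rw [if_neg (fun h => h3 h.2), if_pos h2]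
        positivity
    · rw [if_neg (fun h => h2 h.1), if_neg h2]
  have S2' : ∀ m : ℕ, 0 ≤ (if smooth z m ∧ m.Coprime q then
      (Ph A a m / Real.sqrt m - s m) ^ 2 else 0) := by
    intro m
    split_ifs
    · positivity
    · exact le_rfl
  have hbig : ∀ m : ℕ, A < m → (if smooth z m ∧ m.Coprime q then
      (Ph A a m / Real.sqrt m - s m) ^ 2 else 0) =
      (if smooth z m ∧ m.Coprime q then Ph A a m ^ 2 / m else 0) := by
    intro m hm
    have h2 : s m = 0 := by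
      by_contra h3
      exact absurd (hs m h3) (by omega)
    rw [h2, sub_zero, div_pow, Real.sq_sqrt (Nat.cast_nonneg m)]
  have S2 : Summable (fun m : ℕ => if smooth z m ∧ m.Coprime q then
      (Ph A a m / Real.sqrt m - s m) ^ 2 else 0) := by
    rw [← summable_nat_add_iff (A + 1)]
    have h2 := (summable_nat_add_iff (A + 1)).2 S1
    refine h2.congr fun m => ?_
    exact (hbig (m + (A + 1)) (by omega)).symm
  apply bgi_tsum
  · intro n
    by_cases hn : smooth z n ∧ n.Coprime q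
    · simp only [if_pos hn]
      have hn1 : 1 ≤ n := Nat.one_le_iff_ne_zero.2 hn.1.1
      exact (bgi_g_bound hg h0 h1 hn1).1.mul_const _
    · simp only [if_neg hn]
      exact integrable_zero _ _ _
  · intro n
    apply Filter.Eventually.of_forall
    intro y
    split_ifs
    · exact mul_nonneg (hg.nonneg _) (sq_nonneg _)
    · exact le_rfl
  · rw [ae_restrict_iff' measurableSet_Ioo]
    exact Filter.Eventually.of_forall hsum
  · have h2 : 0 ≤ cnC q z A a := tsum_nonneg S1'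
    have h3 : 0 ≤ cdC q z A a s := tsum_nonneg S2'
    positivity
  · intro K
    have hterm : ∀ n ∈ Finset.range K, ∫ y in Set.Ioo y0 y1,
        (if smooth z n ∧ n.Coprime q then g (n * y) * Ph A a n ^ 2 else 0) ≤
        (if smooth z n ∧ n.Coprime q then Ph A a n ^ 2 / n else 0) * (A * (G * y1)) +
        (if smooth z n ∧ n.Coprime q then (Ph A a n / Real.sqrt n - s n) ^ 2 else 0) * Ig := by
      intro n _
      have hn1' := S1' n
      have hn2' := S2' n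
      by_cases hn : smooth z n ∧ n.Coprime q
      · have hn1 : 1 ≤ n := Nat.one_le_iff_ne_zero.2 hn.1.1
        have hn0 : (0 : ℝ) < n := by exact_mod_cast hn1
        obtain ⟨_, h4, h5⟩ := bgi_g_bound hg h0 h1 hn1
        have h6 := hbig n
        simp only [if_pos hn] at hn1' hn2' h6 ⊢
        rw [integral_mul_const]
        rcases Nat.lt_or_ge A n with h7 | h7
        · rw [h6 h7]
          have h8 : (∫ y in Set.Ioo y0 y1, g (n * y)) * Ph A a n ^ 2 ≤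
              (1 / n) * Ig * Ph A a n ^ 2 := mul_le_mul_of_nonneg_right h4 (sq_nonneg _)
          have h9 : (1 / (n : ℝ)) * Ig * Ph A a n ^ 2 = Ph A a n ^ 2 / n * Ig := by ring
          have h10 : 0 ≤ Ph A a n ^ 2 / n * (A * (G * y1)) := by positivity
          linarith
        · have h8 : (∫ y in Set.Ioo y0 y1, g (n * y)) * Ph A a n ^ 2 ≤
              G * y1 * Ph A a n ^ 2 := mul_le_mul_of_nonneg_right h5 (sq_nonneg _)
          have h9 : G * y1 * Ph A a n ^ 2 ≤ Ph A a n ^ 2 / n * (A * (G * y1)) := by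
            have h10 : (1 : ℝ) ≤ A / n := by
              rw [one_le_div hn0]
              exact_mod_cast h7
            have h11 : Ph A a n ^ 2 / n * (A * (G * y1)) =
                (A / n) * (G * y1 * Ph A a n ^ 2) := by ring
            rw [h11]
            have h12 : 0 ≤ G * y1 * Ph A a n ^ 2 := by positivity
            nlinarith
          have h10 : 0 ≤ (Ph A a n / Real.sqrt n - s n) ^ 2 * Ig := by positivity
          linarith
      · simp only [if_neg hn]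
        simp
    refine (Finset.sum_le_sum hterm).trans ?_
    rw [Finset.sum_add_distrib, ← Finset.sum_mul, ← Finset.sum_mul]
    apply add_le_add
    · apply mul_le_mul_of_nonneg_right _ (by positivity)
      exact S1.sum_le_tsum _ fun m _ => S1' m
    · apply mul_le_mul_of_nonneg_right _ hIg0
      exact S2.sum_le_tsum _ fun m _ => S2' m

open Classical in
/-- the main range -/
theorem ti_main {δ : ℝ} (h0 : 0 < δ) {C₀ G t : ℝ} {g : ℝ → ℝ}
    (hg : Kg g G) {Ig εb ε₂ : ℝ} (hIg : Ig = ∫ u in Set.Ioi (0 : ℝ), g u)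
    (h2 : 0 < ε₂) (h3d : ε₂ ≤ δ / 40) (h1 : δ < 1 / 4) {n q : ℕ} {a s : ℕ → ℝ}
    (hn2 : 2 ≤ n) {Bf : ℝ → ℝ} {r y0 y1 : ℝ} (hr : r = Real.sqrt n)
    (hy0 : y0 = 2 / (QQ δ ε₂ n * r))
    (hy1 : y1 = 2 / r)
    (ha : ∀ k, a k ≠ 0 → smooth (zz n) k ∧ k ≤ KA ε₂ n)
    (hs : ∀ m, s m ≠ 0 → m ≤ KA ε₂ n)
    (hcn : cnC q (zz n) (KA ε₂ n) a ≤ C₀) (hcd : cdC q (zz n) (KA ε₂ n) a s ≤ εb)
    (b1 : IntegrableOn Bf (Set.Ioo y0 y1))
    (hBi : ∫ y in Set.Ioo y0 y1, Bf y ≤ cnC q (zz n) (KA ε₂ n) a / 2 + εb)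
    (p1 : ∀ y, 0 < y → y < y1 →
      Summable (fun m : ℕ => if smooth (zz n) m ∧ m.Coprime q then
        g (m * y) * Ph (KA ε₂ n) a m ^ 2 else 0) ∧
      hN q δ ε₂ n a g y ≤
        Bf y * Ig + (∑' m : ℕ, if smooth (zz n) m ∧ m.Coprime q then
          g (m * y) * Ph (KA ε₂ n) a m ^ 2 else 0) +
        (n : ℝ) ^ (1 / 2 - δ / 2) * (2 / (y * r)))
    (s1 : (n : ℝ) ^ (-(δ / 2)) * (4 + 4 * Real.log n + 2 * |C₀| * G) ≤ t) :
      IntegrableOn (hN q δ ε₂ n a g) (Set.Ioc 0 y0) ∧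
      ∫ y in Set.Ioc 0 y0, hN q δ ε₂ n a g y = 0 ∧
      IntegrableOn (hN q δ ε₂ n a g) (Set.Ioo y0 y1) ∧
      ∫ y in Set.Ioo y0 y1, hN q δ ε₂ n a g y ≤
        Ig * (cnC q (zz n) (KA ε₂ n) a / 2) + 2 * (Ig * εb) + t := by
  obtain ⟨q1, q2, q3, q4⟩ := bgi_sizes h0 h1 h2 h3d hn2
  have hIg0 : 0 ≤ Ig := by
    rw [hIg]
    exact setIntegral_nonneg measurableSet_Ioi fun u _ => hg.nonneg u
  have hG : 0 ≤ G := (hg.nonneg 1).trans (hg.bdd 1)
  have hN0 : (0 : ℝ) < n := by exact_mod_cast (by omega : 0 < n)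
  have hN1 : (1 : ℝ) ≤ n := by exact_mod_cast (by omega : 1 ≤ n)
  have hr0 : 0 < r := by
    rw [hr]
    exact Real.sqrt_pos.2 hN0
  set Q := QQ δ ε₂ n with hQ
  set A := KA ε₂ n with hA
  set z := zz n with hz
  have hQ0 : (0 : ℝ) < Q := by exact_mod_cast (by omega : 0 < Q)
  have hQ2 : (2 : ℝ) ≤ Q := by exact_mod_cast q1
  have hy00 : 0 < y0 := by
    rw [hy0]
    positivity
  have hy01 : y0 ≤ y1 := by
    rw [hy0, hy1]
    apply div_le_div_of_nonneg_left (by norm_num) hr0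
    nlinarith
  have hcn0 : 0 ≤ cnC q z A a := tsum_nonneg fun m => by
    split_ifs
    · positivity
    · exact le_rfl
  have hC₀ : 0 ≤ C₀ := hcn0.trans hcn
  rw [abs_of_nonneg hC₀] at s1
  -- the part close to zero
  have hzero : ∀ y ∈ Set.Ioc 0 y0, hN q δ ε₂ n a g y = 0 := by
    intro y hy
    have e1 : (Q : ℝ) ≤ 2 / (y * r) := by
      rw [le_div_iff₀ (mul_pos hy.1 hr0)]
      have e2 := hy.2
      rw [hy0, le_div_iff₀ (by positivity)] at e2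
      linarith
    have e3 : ∀ m, TT Q (wwC q δ ε₂ n a) (2 / (y * r)) m = 0 := by
      intro m
      unfold TT
      have : (Finset.Icc 1 Q).filter (fun c : ℕ => 2 / (y * r) < c) = ∅ := by
        rw [Finset.filter_eq_empty_iff]
        intro c hc
        rw [Finset.mem_Icc] at hc
        have : (c : ℝ) ≤ Q := by exact_mod_cast hc.2
        exact not_lt.2 (this.trans e1)
      rw [this, Finset.sum_empty]
    unfold hN
    rw [← hr, ← hQ]
    simp only [e3]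
    simp
  have hI1 : IntegrableOn (hN q δ ε₂ n a g) (Set.Ioc 0 y0) := by
    apply (integrableOn_zero).congr_fun (f := fun _ => (0 : ℝ)) _ measurableSet_Ioc
    intro y hy
    exact (hzero y hy).symm
  have hI1' : ∫ y in Set.Ioc 0 y0, hN q δ ε₂ n a g y = 0 := by
    rw [setIntegral_congr_fun measurableSet_Ioc hzero]
    simp
  refine ⟨hI1, hI1', ?_⟩
  -- the main part
  have hin : ∀ y ∈ Set.Ioo y0 y1, 0 < y ∧ y < y1 := fun y hy => ⟨hy00.trans hy.1, hy.2⟩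
  have hP := ti_smooth (q := q) hg ha hs hy00.le hy01 fun y hy =>
    (p1 y (hin y hy).1 (hin y hy).2).1
  obtain ⟨e1, e2, e3, e4⟩ := bgi_elem hr0 hy00 hy01
  obtain ⟨P, hPdef⟩ : ∃ P : ℝ → ℝ, P = fun y => ∑' m : ℕ,
      if smooth z m ∧ m.Coprime q then g (m * y) * Ph A a m ^ 2 else 0 := ⟨_, rfl⟩
  rw [← hPdef] at hP
  have hPi : ∫ y in Set.Ioo y0 y1, P y ≤ cnC q z A a * (A * (G * y1)) + cdC q z A a s * Ig := by
    have := hP.2
    rw [← hIg] at this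
    exact this
  have hdom : ∀ y ∈ Set.Ioo y0 y1, hN q δ ε₂ n a g y ≤
      Bf y * Ig + P y + (n : ℝ) ^ (1 / 2 - δ / 2) * (2 / (y * r)) := by
    intro y hy
    rw [hPdef]
    exact (p1 y (hin y hy).1 (hin y hy).2).2
  have i2 : IntegrableOn (fun y => Bf y * Ig) (Set.Ioo y0 y1) := b1.mul_const _
  have i3 : IntegrableOn P (Set.Ioo y0 y1) := hP.1
  have i4 : IntegrableOn (fun y => (n : ℝ) ^ (1 / 2 - δ / 2) * (2 / (y * r)))
      (Set.Ioo y0 y1) := e1.const_mul _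
  have i23 : IntegrableOn (fun y => Bf y * Ig + P y) (Set.Ioo y0 y1) := i2.add i3
  have i234 : IntegrableOn (fun y => Bf y * Ig + P y +
      (n : ℝ) ^ (1 / 2 - δ / 2) * (2 / (y * r))) (Set.Ioo y0 y1) := i23.add i4
  obtain ⟨hI2, hI2'⟩ := ti_dom (ti_meas hg q δ ε₂ n a hy00 hy01)
    (fun y _ => ti_nonneg hg q δ ε₂ n a y) hdom i234
  refine ⟨hI2, hI2'.trans ?_⟩
  rw [integral_add i23 i4, integral_add i2 i3, integral_mul_const, integral_const_mul, e3]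
  have g3 : (∫ y in Set.Ioo y0 y1, Bf y) * Ig ≤ (cnC q z A a / 2 + εb) * Ig :=
    mul_le_mul_of_nonneg_right hBi hIg0
  -- numerics
  have hrpow : r = (n : ℝ) ^ (1 / 2 : ℝ) := by
    rw [hr, Real.sqrt_eq_rpow]
  have hrinv : 1 / r = (n : ℝ) ^ (-(1 / 2) : ℝ) := by
    rw [hrpow, Real.rpow_neg hN0.le, one_div]
  have n2 : (n : ℝ) ^ (1 / 2 - δ / 2) * (2 / r * Real.log (y1 / y0)) ≤
      (n : ℝ) ^ (-(δ / 2)) * (4 * Real.log n) := by
    have g1 : y1 / y0 = Q := by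
      rw [hy0, hy1]
      field_simp
    rw [g1]
    have g2 : (n : ℝ) ^ (1 / 2 - δ / 2) * (2 / r * Real.log Q) =
        ((n : ℝ) ^ (1 / 2 - δ / 2) * (1 / r)) * (2 * Real.log Q) := by ring
    rw [g2, hrinv, ← Real.rpow_add hN0]
    have g3 : 1 / 2 - δ / 2 + -(1 / 2) = -(δ / 2) := by ring
    rw [g3]
    apply mul_le_mul_of_nonneg_left _ (by positivity)
    linarith
  have n3 : cnC q z A a * (A * (G * y1)) ≤ (n : ℝ) ^ (-(δ / 2)) * (2 * C₀ * G) := by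
    have g1 : cnC q z A a * (A * (G * y1)) = (cnC q z A a) * (A * (1 / r)) * (2 * G) := by
      rw [hy1]
      ring
    rw [g1, hrinv]
    have g2 : (A : ℝ) * (n : ℝ) ^ (-(1 / 2) : ℝ) ≤ (n : ℝ) ^ (-(δ / 2)) := by
      calc (A : ℝ) * (n : ℝ) ^ (-(1 / 2) : ℝ) ≤ (n : ℝ) ^ ε₂ * (n : ℝ) ^ (-(1 / 2) : ℝ) :=
            mul_le_mul_of_nonneg_right q2 (by positivity)
        _ = (n : ℝ) ^ (ε₂ + -(1 / 2)) := by rw [Real.rpow_add hN0]
        _ ≤ _ := Real.rpow_le_rpow_of_exponent_le hN1 (by linarith)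
    have g3 : cnC q z A a * ((A : ℝ) * (n : ℝ) ^ (-(1 / 2) : ℝ)) ≤
        C₀ * (n : ℝ) ^ (-(δ / 2)) := mul_le_mul hcn g2 (by positivity) hC₀
    have g4 : cnC q z A a * ((A : ℝ) * (n : ℝ) ^ (-(1 / 2) : ℝ)) * (2 * G) ≤
        C₀ * (n : ℝ) ^ (-(δ / 2)) * (2 * G) := mul_le_mul_of_nonneg_right g3 (by positivity)
    refine g4.trans (le_of_eq ?_)
    ring
  have n4 : cdC q z A a s * Ig ≤ Ig * εb := by
    have := mul_le_mul_of_nonneg_right hcd hIg0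
    linarith
  have n1 : 0 ≤ (n : ℝ) ^ (-(δ / 2)) * 4 := by positivity
  have n5 : (n : ℝ) ^ (-(δ / 2)) * 4 + (n : ℝ) ^ (-(δ / 2)) * (4 * Real.log n) +
      (n : ℝ) ^ (-(δ / 2)) * (2 * C₀ * G) ≤ t := by
    refine le_trans (le_of_eq ?_) s1
    ring
  have n6 : (cnC q z A a / 2 + εb) * Ig = Ig * (cnC q z A a / 2) + Ig * εb := by ring
  linarith

open Classical in
/-- the strip above the isometric circles -/
theorem ti_strip {δ : ℝ} (h0 : 0 < δ) {C₀ G t ε' : ℝ} (hε' : 0 < ε') {g : ℝ → ℝ}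
    (hg : Kg g G) {Ig εb ε₂ : ℝ} (hIg : Ig = ∫ u in Set.Ioi (0 : ℝ), g u)
    (h2 : 0 < ε₂) (h3d : ε₂ ≤ δ / 40) (h1 : δ < 1 / 4) {n q k : ℕ} {a s : ℕ → ℝ}
    (hn2 : 2 ≤ n) (hk : 1 ≤ k) (hkA : k ≤ KA ε₂ n) {r y1 y2 : ℝ} (hr : r = Real.sqrt n)
    (hy1 : y1 = 2 / r) (hy2 : y2 = 2 * k / r)
    (ha : ∀ k, a k ≠ 0 → smooth (zz n) k ∧ k ≤ KA ε₂ n)
    (hs : ∀ m, s m ≠ 0 → m ≤ KA ε₂ n)
    (hcn : cnC q (zz n) (KA ε₂ n) a ≤ C₀) (hcd : cdC q (zz n) (KA ε₂ n) a s ≤ εb)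
    (hlM : Real.log n ≤ 8 * Real.log (MM δ n)) (hln : 0 < Real.log (MM δ n))
    (p1 : ∀ y, 0 < y → y1 < y →
      Summable (fun m : ℕ => if smooth (zz n) m ∧ m.Coprime q then
        g (m * y) * Ph (KA ε₂ n) a m ^ 2 else 0) ∧
      hN q δ ε₂ n a g y ≤
        (1 + ε') * cnC q (zz n) (KA ε₂ n) a / Real.log (MM δ n) / y * Ig +
        (∑' m : ℕ, if smooth (zz n) m ∧ m.Coprime q then
          g (m * y) * Ph (KA ε₂ n) a m ^ 2 else 0))
    (s1 : (n : ℝ) ^ (-(δ / 2)) * (4 + 4 * Real.log n + 2 * |C₀| * G) ≤ t) :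
      IntegrableOn (hN q δ ε₂ n a g) (Set.Ioo y1 y2) ∧
      ∫ y in Set.Ioo y1 y2, hN q δ ε₂ n a g y ≤
        (1 + ε') * |C₀| * Ig * (8 * ε₂) + Ig * εb + t := by
  have hIg0 : 0 ≤ Ig := by
    rw [hIg]
    exact setIntegral_nonneg measurableSet_Ioi fun u _ => hg.nonneg u
  have hG : 0 ≤ G := (hg.nonneg 1).trans (hg.bdd 1)
  have hN0 : (0 : ℝ) < n := by exact_mod_cast (by omega : 0 < n)
  have hN1 : (1 : ℝ) ≤ n := by exact_mod_cast (by omega : 1 ≤ n)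
  have hr0 : 0 < r := by
    rw [hr]
    exact Real.sqrt_pos.2 hN0
  have hkR : (1 : ℝ) ≤ k := by exact_mod_cast hk
  obtain ⟨-, q2, -, -⟩ := bgi_sizes h0 h1 h2 h3d hn2
  set A := KA ε₂ n with hA
  set z := zz n with hz
  have hkA' : (k : ℝ) ≤ A := by exact_mod_cast hkA
  have hy10 : 0 < y1 := by
    rw [hy1]
    positivity
  have hy12 : y1 ≤ y2 := by
    rw [hy1, hy2]
    apply div_le_div_of_nonneg_right _ hr0.le
    linarith
  have hcn0 : 0 ≤ cnC q z A a := tsum_nonneg fun m => by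
    split_ifs
    · positivity
    · exact le_rfl
  have hC₀ : 0 ≤ C₀ := hcn0.trans hcn
  rw [abs_of_nonneg hC₀] at s1 ⊢
  have hin : ∀ y ∈ Set.Ioo y1 y2, 0 < y ∧ y1 < y := fun y hy => ⟨hy10.trans hy.1, hy.1⟩
  have hP := ti_smooth (q := q) hg ha hs hy10.le hy12 fun y hy =>
    (p1 y (hin y hy).1 (hin y hy).2).1
  obtain ⟨P, hPdef⟩ : ∃ P : ℝ → ℝ, P = fun y => ∑' m : ℕ,
      if smooth z m ∧ m.Coprime q then g (m * y) * Ph A a m ^ 2 else 0 := ⟨_, rfl⟩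
  rw [← hPdef] at hP
  have hPi : ∫ y in Set.Ioo y1 y2, P y ≤ cnC q z A a * (A * (G * y2)) + cdC q z A a s * Ig := by
    have := hP.2
    rw [← hIg] at this
    exact this
  set c : ℝ := (1 + ε') * cnC q z A a / Real.log (MM δ n) * Ig with hc
  have hc0 : 0 ≤ c := by positivity
  have hdom : ∀ y ∈ Set.Ioo y1 y2, hN q δ ε₂ n a g y ≤ c * y⁻¹ + P y := by
    intro y hy
    rw [hPdef]
    refine ((p1 y (hin y hy).1 (hin y hy).2).2).trans (le_of_eq ?_)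
    rw [hc]
    ring
  have i1 : IntegrableOn (fun y : ℝ => y⁻¹) (Set.Ioo y1 y2) := by
    have c1 : ContinuousOn (fun y : ℝ => y⁻¹) (Set.Icc y1 y2) := by
      apply ContinuousOn.inv₀ continuousOn_id
      intro y hy
      exact (hy10.trans_le hy.1).ne'
    exact c1.integrableOn_Icc.mono_set Set.Ioo_subset_Icc_self
  have i2 : IntegrableOn (fun y : ℝ => c * y⁻¹) (Set.Ioo y1 y2) := i1.const_mul c
  have i3 : IntegrableOn P (Set.Ioo y1 y2) := hP.1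
  have i23 : IntegrableOn (fun y => c * y⁻¹ + P y) (Set.Ioo y1 y2) := i2.add i3
  obtain ⟨hI2, hI2'⟩ := ti_dom (ti_meas hg q δ ε₂ n a hy10 hy12)
    (fun y _ => ti_nonneg hg q δ ε₂ n a y) hdom i23
  refine ⟨hI2, hI2'.trans ?_⟩
  rw [integral_add i2 i3, integral_const_mul]
  have e3 : ∫ y in Set.Ioo y1 y2, y⁻¹ = Real.log k := by
    rw [← integral_Ioc_eq_integral_Ioo, ← intervalIntegral.integral_of_le hy12,
      integral_inv_of_pos hy10 (hy10.trans_le hy12)]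
    congr 1
    rw [hy1, hy2]
    field_simp
  rw [e3]
  have hrpow : r = (n : ℝ) ^ (1 / 2 : ℝ) := by
    rw [hr, Real.sqrt_eq_rpow]
  have hrinv : 1 / r = (n : ℝ) ^ (-(1 / 2) : ℝ) := by
    rw [hrpow, Real.rpow_neg hN0.le, one_div]
  have n3 : cnC q z A a * (A * (G * y2)) ≤ (n : ℝ) ^ (-(δ / 2)) * (2 * C₀ * G) := by
    have g1 : cnC q z A a * (A * (G * y2)) = (cnC q z A a) * (A * k * (1 / r)) * (2 * G) := by
      rw [hy2]
      ring
    rw [g1, hrinv]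
    have g2 : (A : ℝ) * k * (n : ℝ) ^ (-(1 / 2) : ℝ) ≤ (n : ℝ) ^ (-(δ / 2)) := by
      have g4 : (A : ℝ) * k ≤ (n : ℝ) ^ ε₂ * (n : ℝ) ^ ε₂ :=
        mul_le_mul q2 (hkA'.trans q2) (by positivity) (by positivity)
      calc (A : ℝ) * k * (n : ℝ) ^ (-(1 / 2) : ℝ) ≤
            ((n : ℝ) ^ ε₂ * (n : ℝ) ^ ε₂) * (n : ℝ) ^ (-(1 / 2) : ℝ) :=
            mul_le_mul_of_nonneg_right g4 (by positivity)
        _ = (n : ℝ) ^ (ε₂ + ε₂ + -(1 / 2)) := by rw [Real.rpow_add hN0, Real.rpow_add hN0]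
        _ ≤ _ := Real.rpow_le_rpow_of_exponent_le hN1 (by linarith)
    have g3 : cnC q z A a * ((A : ℝ) * k * (n : ℝ) ^ (-(1 / 2) : ℝ)) ≤
        C₀ * (n : ℝ) ^ (-(δ / 2)) := mul_le_mul hcn g2 (by positivity) hC₀
    have g4 : cnC q z A a * ((A : ℝ) * k * (n : ℝ) ^ (-(1 / 2) : ℝ)) * (2 * G) ≤
        C₀ * (n : ℝ) ^ (-(δ / 2)) * (2 * G) := mul_le_mul_of_nonneg_right g3 (by positivity)
    refine g4.trans (le_of_eq ?_)
    ring
  have n4 : cdC q z A a s * Ig ≤ Ig * εb := by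
    have := mul_le_mul_of_nonneg_right hcd hIg0
    linarith
  have hlog0 : 0 ≤ Real.log n := Real.log_nonneg hN1
  have n1 : 0 ≤ (n : ℝ) ^ (-(δ / 2)) * (4 + 4 * Real.log n) := by positivity
  have n5 : (n : ℝ) ^ (-(δ / 2)) * (4 + 4 * Real.log n) +
      (n : ℝ) ^ (-(δ / 2)) * (2 * C₀ * G) ≤ t := by
    refine le_trans (le_of_eq ?_) s1
    ring
  have n7 : c * Real.log k ≤ (1 + ε') * C₀ * Ig * (8 * ε₂) := by
    have g1 : Real.log k ≤ ε₂ * Real.log n := by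
      have g2 : Real.log k ≤ Real.log ((n : ℝ) ^ ε₂) :=
        Real.log_le_log (by linarith) (hkA'.trans q2)
      rwa [Real.log_rpow hN0] at g2
    have g3 : Real.log k ≤ 8 * ε₂ * Real.log (MM δ n) := by
      refine g1.trans ?_
      have := mul_le_mul_of_nonneg_left hlM h2.le
      linarith
    calc c * Real.log k ≤ c * (8 * ε₂ * Real.log (MM δ n)) :=
          mul_le_mul_of_nonneg_left g3 hc0
      _ = (1 + ε') * cnC q z A a * Ig * (8 * ε₂) := by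
          rw [hc]
          field_simp
      _ ≤ (1 + ε') * C₀ * Ig * (8 * ε₂) := by
          gcongr
  linarith

/-- the sum over all heights up to `2 k / √n` -/
theorem bulk_genC {δ : ℝ} (h0 : 0 < δ) (h1 : δ < 1 / 4) {ε : ℝ} (hε : 0 < ε) (C₀ : ℝ)
    {g : ℝ → ℝ} {G : ℝ} (hg : Kg g G) : ∃ ε₁ κ : ℝ, 0 < ε₁ ∧ 0 < κ ∧ ∀ ε₂ : ℝ, 0 < ε₂ →
    ε₂ ≤ ε₁ → ∃ N₀ : ℕ, ∀ n : ℕ, N₀ ≤ n → ∀ q k : ℕ, 1 ≤ q → q ≤ KA ε₂ n → 1 ≤ k →
    k ≤ KA ε₂ n → ∀ a : ℕ → ℝ, ShC q (zz n) (KA ε₂ n) a →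
    cnC q (zz n) (KA ε₂ n) a ≤ C₀ → ∀ s : ℕ → ℝ, (∀ m, s m ≠ 0 → m ≤ KA ε₂ n) →
    cdC q (zz n) (KA ε₂ n) a s ≤ κ →
      (∀ y : ℝ, 0 < y → Summable (fun m : ℕ => if (m + 1).Coprime q then g ((m + 1) * y) *
        TT (QQ δ ε₂ n) (wwC q δ ε₂ n a) (2 / (y * Real.sqrt n)) (m + 1) ^ 2 else 0)) ∧
      IntegrableOn (fun y : ℝ => hN q δ ε₂ n a g y) (Set.Ioo 0 (2 * k / Real.sqrt n)) ∧
      ∫ y in Set.Ioo 0 (2 * k / Real.sqrt n), hN q δ ε₂ n a g y ≤
      (∫ u in Set.Ioi (0 : ℝ), g u) * (cnC q (zz n) (KA ε₂ n) a / 2) + ε := by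
  classical
  obtain ⟨Ig, hIg⟩ : ∃ Ig, Ig = ∫ u in Set.Ioi (0 : ℝ), g u := ⟨_, rfl⟩
  have hIg0 : 0 ≤ Ig := by
    rw [hIg]
    exact setIntegral_nonneg measurableSet_Ioi fun u _ => hg.nonneg u
  have hG : 0 ≤ G := (hg.nonneg 1).trans (hg.bdd 1)
  obtain ⟨εb, hεb⟩ : ∃ εb : ℝ, εb = ε / (8 * (Ig + 1)) := ⟨_, rfl⟩
  have hεb0 : 0 < εb := by
    rw [hεb]
    positivity
  have hIgε : Ig * εb ≤ ε / 8 := by
    have e1 : εb * (8 * (Ig + 1)) = ε := by
      rw [hεb]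
      exact div_mul_cancel₀ _ (by positivity)
    nlinarith
  obtain ⟨ε', ε₁b, hε', hε₁b, hb⟩ := b_intC h0 h1 hεb0 C₀
  obtain ⟨L, hL⟩ : ∃ L : ℝ, L = (1 + ε') * |C₀| * Ig := ⟨_, rfl⟩
  have hL0 : 0 ≤ L := by
    rw [hL]
    positivity
  refine ⟨min (min ε₁b (δ / 40)) (ε / (64 * (L + 1))), εb, by positivity, hεb0, ?_⟩
  intro ε₂ h2 h3
  have h3b : ε₂ ≤ ε₁b := h3.trans ((min_le_left _ _).trans (min_le_left _ _))
  have h3d : ε₂ ≤ δ / 40 := h3.trans ((min_le_left _ _).trans (min_le_right _ _))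
  have h3e : ε₂ ≤ ε / (64 * (L + 1)) := h3.trans (min_le_right _ _)
  have hLe : L * (8 * ε₂) ≤ ε / 8 := by
    rw [le_div_iff₀ (by positivity)] at h3e
    nlinarith
  obtain ⟨Nb, hNb⟩ := hb ε₂ h2 h3b
  obtain ⟨Np, hNp⟩ := bulk_pointC h0 h1 hε' hg h2 h3d
  obtain ⟨Nz, hNz⟩ := strip_pointC h0 h1 hε' hg h2
  obtain ⟨Ns, hNs⟩ := bgi_small h0 (show 0 < ε / 8 by positivity) (2 * |C₀| * G)
  obtain ⟨N₁, hN₁⟩ := sizes h0 h1 (ε := 1) one_pos
  obtain ⟨N₂, hN₂⟩ : ∃ N₂ : ℕ, ∀ n : ℕ, N₂ ≤ n → 8 ≤ Real.log n := by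
    have := (Real.tendsto_log_atTop.comp tendsto_natCast_atTop_atTop).eventually_ge_atTop 8
    obtain ⟨N₂, h⟩ := eventually_atTop.1 this
    exact ⟨N₂, fun n hn => h n hn⟩
  refine ⟨Nb + Np + Nz + Ns + N₁ + N₂ + 2, ?_⟩
  intro n hn q k hq hqA hk hkA a ha hcn s hs hcd
  have hn2 : 2 ≤ n := by omega
  have hn1R : (1 : ℝ) ≤ n := by exact_mod_cast (by omega : 1 ≤ n)
  have hln8 := hN₂ n (by omega)
  obtain ⟨-, -, -, -, -, -, hM, -⟩ := hN₁ n (by omega)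
  have hM1 : (1 / 2 - δ) * Real.log n - 1 ≤ Real.log (MM δ n) := by
    have := (abs_le.1 hM).1
    linarith
  have hM2 : Real.log n ≤ 8 * Real.log (MM δ n) := by nlinarith
  have hM3 : 0 < Real.log (MM δ n) := by linarith
  have hqn : q ≤ n := by
    have e1 : (KA ε₂ n : ℝ) ≤ (n : ℝ) ^ ε₂ := (bgi_sizes h0 h1 h2 h3d hn2).2.1
    have e2 : (n : ℝ) ^ ε₂ ≤ (n : ℝ) ^ (1 : ℝ) :=
      Real.rpow_le_rpow_of_exponent_le hn1R (by linarith)
    rw [Real.rpow_one] at e2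
    have e3 : KA ε₂ n ≤ n := by exact_mod_cast e1.trans e2
    omega
  obtain ⟨b1, b2⟩ := hNb n (by omega) q hq hqn a ha hcn
  have hsup : ∀ k, a k ≠ 0 → smooth (zz n) k ∧ k ≤ KA ε₂ n :=
    fun k hk => ⟨(ha.sup k hk).1, (ha.sup k hk).2.1⟩
  have hn0 : (0 : ℝ) < n := by linarith
  have hr0 : 0 < Real.sqrt n := Real.sqrt_pos.2 hn0
  refine ⟨fun y hy => ti_summ hg q _ _ hy _, ?_⟩
  obtain ⟨m1, m2, m3, m4⟩ := ti_main (t := ε / 8) (g := g) (G := G) (Ig := Ig) (εb := εb)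
    (s := s) (C₀ := C₀) h0 hg hIg h2 h3d h1 hn2 rfl rfl rfl hsup hs hcn hcd b1 b2
    (fun y hy hy' => by
      obtain ⟨p1, p2⟩ := hNp n (by omega) q hq hqA a ha y hy hy'
      refine ⟨((hNz n (by omega) q hq a ha y hy).1), ?_⟩
      rw [hIg]
      exact p2) (hNs n (by omega))
  obtain ⟨t1, t2⟩ := ti_strip (t := ε / 8) (g := g) (G := G) (Ig := Ig) (εb := εb)
    (s := s) (C₀ := C₀) (k := k) h0 hε' hg hIg h2 h3d h1 hn2 hk hkA rfl rfl rfl hsup hs hcn hcd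
    hM2 hM3
    (fun y hy hy' => by
      obtain ⟨p1, p2⟩ := hNz n (by omega) q hq a ha y hy
      refine ⟨p1, ?_⟩
      rw [hIg]
      exact (p2 hy').2) (hNs n (by omega))
  rw [← hIg]
  set y0 : ℝ := 2 / (QQ δ ε₂ n * Real.sqrt n) with hy0
  set y1 : ℝ := 2 / Real.sqrt n with hy1
  set y2 : ℝ := 2 * k / Real.sqrt n with hy2
  obtain ⟨q1, -, -, -⟩ := bgi_sizes h0 h1 h2 h3d hn2
  have hQ2 : (2 : ℝ) ≤ QQ δ ε₂ n := by exact_mod_cast q1
  have hkR : (1 : ℝ) ≤ k := by exact_mod_cast hk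
  have hy00 : 0 < y0 := by
    rw [hy0]
    positivity
  have hlt : y0 < y1 := by
    rw [hy0, hy1]
    apply div_lt_div_of_pos_left (by norm_num) hr0
    nlinarith
  have hle : y1 ≤ y2 := by
    rw [hy1, hy2]
    apply div_le_div_of_nonneg_right _ hr0.le
    linarith
  have t1' : IntegrableOn (hN q δ ε₂ n a g) (Set.Ico y1 y2) :=
    (integrableOn_Ico_iff_integrableOn_Ioo (by simp)).2 t1
  have t2' : ∫ y in Set.Ico y1 y2, hN q δ ε₂ n a g y = ∫ y in Set.Ioo y1 y2, hN q δ ε₂ n a g y :=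
    integral_Ico_eq_integral_Ioo
  have hun : Set.Ioo 0 y2 = (Set.Ioc 0 y0 ∪ Set.Ioo y0 y1) ∪ Set.Ico y1 y2 := by
    ext y
    simp only [Set.mem_Ioo, Set.mem_union, Set.mem_Ioc, Set.mem_Ico]
    constructor
    · rintro ⟨g1, g2⟩
      rcases le_or_gt y y0 with g3 | g3
      · exact Or.inl (Or.inl ⟨g1, g3⟩)
      · rcases lt_or_ge y y1 with g4 | g4
        · exact Or.inl (Or.inr ⟨g3, g4⟩)
        · exact Or.inr ⟨g4, g2⟩
    · rintro ((⟨g1, g2⟩ | ⟨g1, g2⟩) | ⟨g1, g2⟩)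
      · exact ⟨g1, by linarith⟩
      · exact ⟨by linarith, by linarith⟩
      · exact ⟨by linarith, g2⟩
  have hdisj : Disjoint (Set.Ioc 0 y0) (Set.Ioo y0 y1) := by
    rw [Set.disjoint_left]
    intro y g1 g2
    exact absurd g1.2 (not_le.2 g2.1)
  have hdisj2 : Disjoint (Set.Ioc 0 y0 ∪ Set.Ioo y0 y1) (Set.Ico y1 y2) := by
    rw [Set.disjoint_left]
    rintro y (g1 | g1) g2
    · exact absurd (g1.2.trans_lt hlt) (not_lt.2 g2.1)
    · exact absurd g1.2 (not_lt.2 g2.1)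
  rw [hun]
  refine ⟨(m1.union m3).union t1', ?_⟩
  rw [setIntegral_union hdisj2 measurableSet_Ico (m1.union m3) t1',
    setIntegral_union hdisj measurableSet_Ioo m1 m3, m2, zero_add, t2']
  have hLL : (1 + ε') * |C₀| * Ig * (8 * ε₂) = L * (8 * ε₂) := by rw [hL]
  rw [hLL] at t2
  linarith

end Pool.Agent.TK
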